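import Mathlib

set_option autoImplicit false

/-!
# Finite quasigroups with `((x y) x) y = x` have order `0` or `1` modulo `4`

Let `U (x, y) = (x y, y)`, `V (x, y) = (x, x y)` and `σ (x, y) = (y, x)`, three permutations of `S × S`. The identity says
`V U⁻¹ = U σ V`. Comparing signs gives that `σ` is even, that is, `n (n - 1) / 2` is even.
-/

namespace Pool.Agent.Results.MP_425159_co.ZeroOrOneModFour

/-- `S` with the operation `m` is a quasigroup: left and right translations are bijections. -/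
def IsQuasigroup {S : Type} (m : S → S → S) : Prop :=
  (∀ a, Function.Bijective fun x => m a x) ∧ ∀ a, Function.Bijective fun x => m x a

/-- `n` is in the spectrum of the identity `((x y) x) y = x`: some quasigroup of order `n` satisfies it. -/
def InSpectrum (n : ℕ) : Prop :=
  ∃ (S : Type) (m : S → S → S), Nat.card S = n ∧ 0 < n ∧ IsQuasigroup m ∧ ∀ x y, m (m (m x y) x) y = x

/-- Every order in the spectrum of the identity `((x y) x) y = x` is congruent to `0` or `1` modulo `4`. -/
theorem result : ∀ n : ℕ, InSpectrum n → n % 4 = 0 ∨ n % 4 = 1 := by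
  classical
  rintro n ⟨S, m, hcard, hn, ⟨hl, hr⟩, hE⟩
  have hfin : Finite S := Nat.finite_of_card_ne_zero (by omega)
  have := Fintype.ofFinite S
  let U : Equiv.Perm (S × S) := Equiv.ofBijective (fun p => (m p.1 p.2, p.2)) (by
    constructor
    · rintro ⟨x, y⟩ ⟨x', y'⟩ h
      simp only [Prod.mk.injEq] at h
      obtain ⟨h1, rfl⟩ := h
      exact Prod.ext ((hr y).1 h1) rfl
    · rintro ⟨z, y⟩
      obtain ⟨x, hx⟩ := (hr y).2 z
      exact ⟨(x, y), Prod.ext hx rfl⟩)
  let V : Equiv.Perm (S × S) := Equiv.ofBijective (fun p => (p.1, m p.1 p.2)) (by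
    constructor
    · rintro ⟨x, y⟩ ⟨x', y'⟩ h
      simp only [Prod.mk.injEq] at h
      obtain ⟨rfl, h1⟩ := h
      exact Prod.ext rfl ((hl x).1 h1)
    · rintro ⟨x, z⟩
      obtain ⟨y, hy⟩ := (hl x).2 z
      exact ⟨(x, y), Prod.ext rfl hy⟩)
  let σ : Equiv.Perm (S × S) := Equiv.prodComm S S
  have key : V * U⁻¹ = U * σ * V := by
    ext1 p
    obtain ⟨q, rfl⟩ := U.surjective p
    obtain ⟨w, y⟩ := q
    -- `q = (w, y)`, `p = (x, y)` with `x = w y`
    have h1 : (V * U⁻¹) (U (w, y)) = (w, m w y) := by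
      show V (U.symm (U (w, y))) = _
      rw [Equiv.symm_apply_apply]
      rfl
    have h2 : (U * σ * V) (U (w, y)) = (m (m (m w y) y) (m w y), m w y) := rfl
    rw [h1, h2]
    refine Prod.ext ?_ rfl
    -- `w y = x` and `((x y) x) y = x`
    show w = m (m (m w y) y) (m w y)
    apply (hr y).1
    show m w y = m (m (m (m w y) y) (m w y)) y
    rw [hE]
  have hsign : Equiv.Perm.sign σ = 1 := by
    have h1 := congrArg Equiv.Perm.sign key
    simp only [Equiv.Perm.sign_mul, Equiv.Perm.sign_inv] at h1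
    have h2 : Equiv.Perm.sign U * Equiv.Perm.sign V * Equiv.Perm.sign σ =
        Equiv.Perm.sign U * Equiv.Perm.sign V * 1 := by
      rw [mul_one, mul_assoc, mul_comm (Equiv.Perm.sign V) (Equiv.Perm.sign σ), ← mul_assoc, ← h1, mul_comm]
    exact mul_left_cancel h2
  have hσ2 : σ ^ 2 = 1 := by
    ext1 p
    rfl
  have hfix : Fintype.card (Function.fixedPoints σ) = Fintype.card S := by
    apply Fintype.card_congr
    refine ⟨fun p => p.1.1, fun x => ⟨(x, x), rfl⟩, ?_, fun _ => rfl⟩
    rintro ⟨⟨x, y⟩, h⟩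
    have h1 : y = x := congrArg Prod.fst h
    subst h1
    rfl
  have hF : Fintype.card S = n := by rw [← hcard, Nat.card_eq_fintype_card]
  rw [Equiv.Perm.sign_of_pow_two_eq_one hσ2, hfix, Fintype.card_prod, hF] at hsign
  have heven : Even ((n * n - n) / 2) := by
    by_contra hodd
    rw [Nat.not_even_iff_odd] at hodd
    rw [hodd.neg_one_pow] at hsign
    exact absurd hsign (by decide)
  -- arithmetic
  obtain ⟨k, hk⟩ := heven
  have h4 : n * n - n = n * (n - 1) := by rw [Nat.mul_sub, mul_one]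
  rw [h4] at hk
  have h5 : 2 ∣ n * (n - 1) := (Nat.even_mul_pred_self n).two_dvd
  obtain ⟨d, hd⟩ := h5
  rw [hd, Nat.mul_div_cancel_left _ (by norm_num)] at hk
  subst hk
  have h6 : n * (n - 1) = 4 * k := by rw [hd]; ring
  have h7 : n % 4 < 4 := Nat.mod_lt _ (by norm_num)
  obtain ⟨t, r, hr4, ht⟩ : ∃ t r, r < 4 ∧ n = 4 * t + r := ⟨n / 4, n % 4, h7, by omega⟩
  interval_cases r
  · left; omega
  · right; omega
  · exfalso
    subst ht
    have : (4 * t + 2) * (4 * t + 2 - 1) = 4 * (4 * t * t + 3 * t) + 2 := by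
      have : 4 * t + 2 - 1 = 4 * t + 1 := by omega
      rw [this]; ring
    omega
  · exfalso
    subst ht
    have : (4 * t + 3) * (4 * t + 3 - 1) = 4 * (4 * t * t + 5 * t + 1) + 2 := by
      have : 4 * t + 3 - 1 = 4 * t + 2 := by omega
      rw [this]; ring
    omega

end Pool.Agent.Results.MP_425159_co.ZeroOrOneModFour
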